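import Mathlib

/-!
Stable multi-matchings of a locally finite configuration: if in every dyadic-type annulus there is a
point whose number of stubs is at least the number of points in a ball six times as large, these
points form an infinite path in every stable multi-matching.
-/

set_option autoImplicit false

namespace Pool.Agent.Q220.MM

open Set

/-- The point `a` is willing to link to the point `b` in the graph `G`: it has a free stub, or an
incident edge longer than the distance from `a` to `b`. -/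
def Willing {E : Type*} [PseudoMetricSpace E] (x : ℕ → E) (D : ℕ → ℕ) (G : SimpleGraph ℕ)
    (a b : ℕ) : Prop :=
  (G.neighborSet a).encard < D a ∨ ∃ c, G.Adj a c ∧ dist (x a) (x b) < dist (x a) (x c)

/-- A stable multi-matching of the points `x n` with `D n` stubs. -/
structure Stable {E : Type*} [PseudoMetricSpace E] (x : ℕ → E) (D : ℕ → ℕ)
    (G : SimpleGraph ℕ) : Prop where
  deg : ∀ n, (G.neighborSet n).encard ≤ D n
  stable : ∀ a b, a ≠ b → ¬ G.Adj a b → ¬ (Willing x D G a b ∧ Willing x D G b a)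

/-- A stable multi-matching in which the point `x n` has exactly `D n` neighbours: any two distinct
points are adjacent, or at least one of them has no incident edge longer than their distance. -/
structure ExactStable {E : Type*} [PseudoMetricSpace E] (x : ℕ → E) (D : ℕ → ℕ)
    (G : SimpleGraph ℕ) : Prop where
  degree : ∀ n, (G.neighborSet n).encard = D n
  stable : ∀ a b, a ≠ b → G.Adj a b ∨ (∀ c, G.Adj a c → dist (x a) (x c) ≤ dist (x a) (x b)) ∨
    (∀ c, G.Adj b c → dist (x b) (x c) ≤ dist (x a) (x b))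

theorem ExactStable.toStable {E : Type*} [PseudoMetricSpace E] {x : ℕ → E} {D : ℕ → ℕ}
    {G : SimpleGraph ℕ} (h : ExactStable x D G) : Stable x D G := by
  refine ⟨fun n => (h.degree n).le, ?_⟩
  rintro a b hab hn ⟨ha, hb⟩
  rcases h.stable a b hab with h1 | h1 | h1
  · exact hn h1
  · rcases ha with h2 | ⟨c, hc, h2⟩
    · rw [h.degree] at h2
      exact lt_irrefl _ h2
    · exact absurd (h1 c hc) (not_le.mpr h2)
  · rcases hb with h2 | ⟨c, hc, h2⟩
    · rw [h.degree] at h2
      exact lt_irrefl _ h2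
    · rw [dist_comm (x b) (x a)] at h2
      exact absurd (h1 c hc) (not_le.mpr h2)

variable {E : Type*} [NormedAddCommGroup E] {x : ℕ → E} {D : ℕ → ℕ} {G : SimpleGraph ℕ}

theorem willing_of_card {a b : ℕ} {r R : ℝ} (ha : ‖x a‖ ≤ r) (hR : r ≤ R)
    (hd : dist (x a) (x b) + r ≤ R)
    (hcard : {n | ‖x n‖ ≤ R}.encard ≤ D a) : Willing x D G a b := by
  by_contra hw
  unfold Willing at hw
  push Not at hw
  obtain ⟨h1, h2⟩ := hw
  have hfin : {n | ‖x n‖ ≤ R}.Finite := by
    rw [← Set.encard_lt_top_iff]
    exact lt_of_le_of_lt hcard (ENat.natCast_lt_top _)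
  have hmem : a ∈ {n | ‖x n‖ ≤ R} := ha.trans hR
  have hsub : G.neighborSet a ⊆ {n | ‖x n‖ ≤ R} \ {a} := by
    intro c hc
    have hc' : G.Adj a c := hc
    refine ⟨?_, fun h => G.loopless.irrefl a (by rw [Set.mem_singleton_iff] at h; rw [h] at hc'; exact hc')⟩
    have h3 := h2 c hc'
    have h4 : ‖x c‖ ≤ ‖x a‖ + dist (x a) (x c) := by
      rw [dist_eq_norm, norm_sub_rev]
      have := norm_add_le (x a) (x c - x a)
      simpa using this
    show ‖x c‖ ≤ R
    linarith
  have h5 : (G.neighborSet a).encard ≤ ({n | ‖x n‖ ≤ R} \ {a}).encard := Set.encard_le_encard hsub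
  have h6 : ({n | ‖x n‖ ≤ R} \ {a}).encard + 1 = {n | ‖x n‖ ≤ R}.encard :=
    Set.encard_sdiff_singleton_add_one hmem
  have h7 : ({n | ‖x n‖ ≤ R} \ {a}).encard < ⊤ := by
    rw [Set.encard_lt_top_iff]
    exact hfin.subset Set.sdiff_subset
  have h8 : {n | ‖x n‖ ≤ R}.encard ≤ ({n | ‖x n‖ ≤ R} \ {a}).encard :=
    hcard.trans (h1.trans h5)
  rw [← h6] at h8
  have h9 := (ENat.add_one_le_iff h7.ne).mp h8
  exact lt_irrefl _ h9

/-- the chain of rich points percolates -/
theorem infinite_comp (hst : Stable x D G) (J : ℕ) (a : ℕ → ℕ)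
    (hlo : ∀ j, J ≤ j → (4 : ℝ) ^ j < ‖x (a j)‖)
    (hhi : ∀ j, J ≤ j → ‖x (a j)‖ ≤ (4 : ℝ) ^ (j + 1))
    (hcard : ∀ j, J ≤ j → {n | ‖x n‖ ≤ 6 * (4 : ℝ) ^ (j + 1)}.encard ≤ D (a j)) :
    ∃ c : G.ConnectedComponent, c.supp.Infinite := by
  have hlt : ∀ j k, J ≤ j → j < k → ‖x (a j)‖ < ‖x (a k)‖ := by
    intro j k hj hjk
    have h1 := hhi j hj
    have h2 := hlo k (by omega)
    have h3 : (4 : ℝ) ^ (j + 1) ≤ 4 ^ k := pow_le_pow_right₀ (by norm_num) hjk
    linarith
  have hadj : ∀ j, J ≤ j → G.Adj (a j) (a (j + 1)) := by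
    intro j hj
    by_contra hn
    have hne : a j ≠ a (j + 1) := by
      intro h
      have := hlt j (j + 1) hj (by omega)
      rw [h] at this
      exact lt_irrefl _ this
    have hdist : dist (x (a j)) (x (a (j + 1))) ≤ 5 * (4 : ℝ) ^ (j + 1) := by
      rw [dist_eq_norm]
      have h1 := norm_sub_le (x (a j)) (x (a (j + 1)))
      have h2 := hhi j hj
      have h3 := hhi (j + 1) (by omega)
      have h4 : (4 : ℝ) ^ (j + 1 + 1) = 4 * 4 ^ (j + 1) := by ring
      rw [h4] at h3
      linarith
    have hpos : (0 : ℝ) < 4 ^ (j + 1) := by positivity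
    have h4 : (4 : ℝ) ^ (j + 1 + 1) = 4 * 4 ^ (j + 1) := by ring
    refine hst.stable (a j) (a (j + 1)) hne hn ⟨?_, ?_⟩
    · refine willing_of_card (hhi j hj) ?_ ?_ (hcard j hj)
      · linarith
      · linarith
    · refine willing_of_card (hhi (j + 1) (by omega)) ?_ ?_ (hcard (j + 1) (by omega))
      · rw [h4]; linarith
      · rw [dist_comm, h4]; linarith
  have hreach : ∀ i, G.Reachable (a J) (a (J + i)) := by
    intro i
    induction i with
    | zero => exact SimpleGraph.Reachable.refl _
    | succ i ih => exact ih.trans (hadj (J + i) (by omega)).reachable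
  refine ⟨G.connectedComponentMk (a J), ?_⟩
  have hinj : Function.Injective fun i => a (J + i) := by
    intro i k hik
    by_contra hne
    rcases lt_or_gt_of_ne hne with h | h
    · have := hlt (J + i) (J + k) (by omega) (by omega)
      simp only at hik
      rw [hik] at this
      exact lt_irrefl _ this
    · have := hlt (J + k) (J + i) (by omega) (by omega)
      simp only at hik
      rw [hik] at this
      exact lt_irrefl _ this
  refine (Set.infinite_range_of_injective hinj).mono ?_
  rintro _ ⟨i, rfl⟩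
  rw [SimpleGraph.ConnectedComponent.mem_supp_iff, SimpleGraph.ConnectedComponent.eq]
  exact (hreach i).symm

end Pool.Agent.Q220.MM
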