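import Pool.Agent.Q220.Match.Poi

/-!
Heavy tailed degrees: the stable multi-matching percolates in every dimension.
-/

set_option autoImplicit false

namespace Pool.Agent.Q220.MM

open MeasureTheory ProbabilityTheory Set Filter
open scoped ENNReal

variable {Ω E : Type*} [MeasurableSpace Ω] [NormedAddCommGroup E] [NormedSpace ℝ E]
  [FiniteDimensional ℝ E] [MeasureSpace E] [BorelSpace E] [(volume : Measure E).IsAddHaarMeasure]
  {P : Measure Ω} {μ : Measure ℕ} {x : Ω → ℕ → E} {D : Ω → ℕ → ℕ}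

variable (E) in
/-- the volume of the unit ball -/
noncomputable def vd : ℝ := (volume (Metric.ball (0 : E) 1)).toReal

theorem vd_pos : 0 < vd E :=
  ENNReal.toReal_pos (Metric.measure_ball_pos volume 0 one_pos).ne' measure_ball_lt_top.ne

theorem vol_cb {r : ℝ} (hr : 0 ≤ r) :
    (volume (Metric.closedBall (0 : E) r)).toReal = r ^ (Module.finrank ℝ E) * vd E := by
  rw [Measure.addHaar_closedBall _ _ hr, ENNReal.toReal_mul, ENNReal.toReal_ofReal (by positivity),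
    vd]

variable (E) in
/-- annulus -/
def ann (j : ℕ) : Set E :=
  Metric.closedBall 0 ((4 : ℝ) ^ (j + 1)) \ Metric.closedBall 0 ((4 : ℝ) ^ j)

theorem ann_meas (j : ℕ) : MeasurableSet (ann E j) :=
  Metric.isClosed_closedBall.measurableSet.diff Metric.isClosed_closedBall.measurableSet

theorem ann_fin (j : ℕ) : volume (ann E j) ≠ ∞ :=
  ((measure_mono Set.sdiff_subset).trans_lt measure_closedBall_lt_top).ne

theorem ann_vol {d : ℕ} (hE : Module.finrank ℝ E = d) (hd : 1 ≤ d) (j : ℕ) :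
    3 * (4 : ℝ) ^ (d * j) * vd E ≤ (volume (ann E j)).toReal := by
  have h1 : volume (ann E j) = volume (Metric.closedBall (0 : E) ((4 : ℝ) ^ (j + 1))) -
      volume (Metric.closedBall (0 : E) ((4 : ℝ) ^ j)) := by
    rw [ann, measure_sdiff (Metric.closedBall_subset_closedBall
      (pow_le_pow_right₀ (by norm_num) (by omega)))
      Metric.isClosed_closedBall.measurableSet.nullMeasurableSet measure_closedBall_lt_top.ne]
  rw [h1, ENNReal.toReal_sub_of_le (measure_mono (Metric.closedBall_subset_closedBall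
      (pow_le_pow_right₀ (by norm_num) (by omega)))) measure_closedBall_lt_top.ne,
    vol_cb (by positivity), vol_cb (by positivity), hE]
  have h2 : ((4 : ℝ) ^ (j + 1)) ^ d = 4 ^ (d * j) * 4 ^ d := by
    rw [← pow_mul, ← pow_add]; congr 1; ring
  have h3 : ((4 : ℝ) ^ j) ^ d = 4 ^ (d * j) := by
    rw [← pow_mul]; congr 1; ring
  have h4 : (4 : ℝ) ^ 1 ≤ 4 ^ d := pow_le_pow_right₀ (by norm_num) hd
  have h5 : 0 < vd E := vd_pos (E := E)
  have h6 : (0 : ℝ) < 4 ^ (d * j) := by positivity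
  rw [h2, h3]
  have h7 : (0 : ℝ) ≤ 4 ^ (d * j) * (4 ^ d - 4) * vd E := by
    have : (0 : ℝ) ≤ 4 ^ d - 4 := by linarith
    positivity
  nlinarith

theorem geo_fin {c : ℝ} (hc : 0 < c) : ∑' j : ℕ, ENNReal.ofReal (Real.exp (-(c * j))) ≠ ∞ := by
  have h1 : ∀ j : ℕ, ENNReal.ofReal (Real.exp (-(c * j))) = ENNReal.ofReal (Real.exp (-c)) ^ j := by
    intro j
    rw [← ENNReal.ofReal_pow (Real.exp_pos _).le, ← Real.exp_nat_mul]
    congr 2
    ring
  simp_rw [h1]
  rw [ENNReal.tsum_geometric]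
  have h2 : ENNReal.ofReal (Real.exp (-c)) < 1 := by
    rw [ENNReal.ofReal_lt_one]
    rw [← Real.exp_zero]
    exact Real.exp_lt_exp.mpr (by linarith)
  rw [ENNReal.inv_ne_top]
  exact (tsub_pos_of_lt h2).ne'

/-- **Main theorem.** If `μ {n | 2 * 4 ^ k ≤ n} ≥ c 2 ^ {-k}` for all `k`, then almost surely every
stable multi-matching has an infinite component. -/
theorem percolates [IsProbabilityMeasure P] [IsProbabilityMeasure μ] [Nontrivial E]
    (h : IsMarkedPoisson P μ x D) {c : ℝ} (hc : 0 < c)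
    (htail : ∀ k : ℕ, c * (1 / 2) ^ k ≤ (μ {n | 2 * 4 ^ k ≤ n}).toReal) :
    ∀ᵐ ω ∂P, ∀ G : SimpleGraph ℕ, Stable (x ω) (D ω) G →
      ∃ C : G.ConnectedComponent, C.supp.Infinite := by
  have hv := vd_pos (E := E)
  obtain ⟨d, hE⟩ : ∃ d, Module.finrank ℝ E = d := ⟨_, rfl⟩
  have hd : 1 ≤ d := by
    rw [← hE]
    exact Module.finrank_pos
  obtain ⟨K, hK⟩ : ∃ K : ℕ, vd E * 24 ^ d + 1 < (4 : ℝ) ^ K :=
    pow_unbounded_of_one_lt _ (by norm_num)
  -- thresholds
  set m : ℕ → ℕ := fun j => 2 * 4 ^ (d * j + K) with hm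
  have hjle : ∀ j : ℕ, (j : ℝ) ≤ 2 ^ (d * j) := by
    intro j
    have h1 : j ≤ d * j := Nat.le_mul_of_pos_left _ hd
    have h2 : d * j < 2 ^ (d * j) := Nat.lt_two_pow_self
    exact_mod_cast (h1.trans h2.le)
  -- too many points in the ball
  have hbad1 : ∀ j : ℕ, P {ω | (m j : ℕ∞) < cnt (x ω) (Metric.closedBall 0 (6 * (4 : ℝ) ^ (j + 1)))} ≤
      ENNReal.ofReal (Real.exp (-(1 * j))) := by
    intro j
    refine (cnt_gt h Metric.isClosed_closedBall.measurableSet measure_closedBall_lt_top.ne _).trans ?_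
    rw [vol_cb (by positivity), hE]
    have h2 : (2⁻¹ : ℝ≥0∞) = ENNReal.ofReal (Real.exp (-Real.log 2)) := by
      rw [Real.exp_neg, Real.exp_log (by norm_num), ENNReal.ofReal_inv_of_pos (by norm_num)]
      norm_num
    rw [h2, ← ENNReal.ofReal_pow (Real.exp_pos _).le, ← Real.exp_nat_mul,
      ← ENNReal.ofReal_mul (Real.exp_pos _).le, ← Real.exp_add]
    apply ENNReal.ofReal_le_ofReal
    apply Real.exp_le_exp.mpr
    have h3 : (1 / 2 : ℝ) ≤ Real.log 2 := by
      have := Real.log_two_gt_d9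
      linarith
    have h4 : ((m j : ℕ) : ℝ) = 2 * (4 ^ (d * j) * 4 ^ K) := by
      rw [hm]
      push_cast
      rw [pow_add]
    have h5 : (6 * (4 : ℝ) ^ (j + 1)) ^ d = 24 ^ d * 4 ^ (d * j) := by
      have : 6 * (4 : ℝ) ^ (j + 1) = 24 * 4 ^ j := by ring
      rw [this, mul_pow, ← pow_mul, mul_comm j d]
    rw [h5]
    have h6 : (0 : ℝ) < 4 ^ (d * j) := by positivity
    have h7 : (j : ℝ) ≤ 4 ^ (d * j) :=
      (hjle j).trans (pow_le_pow_left₀ (by norm_num) (by norm_num) _)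
    have h8 : (m j : ℝ) * (1 / 2) ≤ (m j : ℝ) * Real.log 2 :=
      mul_le_mul_of_nonneg_left h3 (Nat.cast_nonneg _)
    have h9 : 4 ^ (d * j) * (vd E * 24 ^ d + 1) ≤ (4 : ℝ) ^ (d * j) * 4 ^ K :=
      mul_le_mul_of_nonneg_left hK.le h6.le
    rw [h4] at h8 ⊢
    nlinarith
  -- no rich point in the annulus
  set c' : ℝ := 3 * vd E * c * (1 / 2) ^ K with hc'
  have hc'pos : 0 < c' := by positivity
  have hbad2 : ∀ j : ℕ, P {ω | ∀ n, x ω n ∈ ann E j → D ω n ∉ {n | 2 * 4 ^ (d * j + K) ≤ n}} ≤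
      ENNReal.ofReal (Real.exp (-(c' * j))) := by
    intro j
    refine (no_mark h (ann_meas j) (ann_fin j) MeasurableSet.of_discrete).trans ?_
    apply ENNReal.ofReal_le_ofReal
    apply Real.exp_le_exp.mpr
    apply neg_le_neg
    have h1 := ann_vol hE hd j
    have h2 := htail (d * j + K)
    have h3 : c' * 2 ^ (d * j) = (3 * (4 : ℝ) ^ (d * j) * vd E) * (c * (1 / 2) ^ (d * j + K)) := by
      rw [hc', pow_add]
      have : (4 : ℝ) ^ (d * j) = 2 ^ (d * j) * 2 ^ (d * j) := by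
        rw [← mul_pow]; norm_num
      rw [this]
      have h4 : (2 : ℝ) ^ (d * j) * (1 / 2) ^ (d * j) = 1 := by
        rw [← mul_pow]; norm_num
      linear_combination (-(3 * vd E * c * (1 / 2) ^ K) * 2 ^ (d * j)) * h4
    calc c' * j ≤ c' * 2 ^ (d * j) := mul_le_mul_of_nonneg_left (hjle j) hc'pos.le
      _ = (3 * (4 : ℝ) ^ (d * j) * vd E) * (c * (1 / 2) ^ (d * j + K)) := h3
      _ ≤ _ := mul_le_mul h1 h2 (by positivity) ENNReal.toReal_nonneg
  have e1 := ae_eventually_notMem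
    (ne_top_of_le_ne_top (geo_fin one_pos) (ENNReal.tsum_le_tsum hbad1))
  have e2 := ae_eventually_notMem
    (ne_top_of_le_ne_top (geo_fin hc'pos) (ENNReal.tsum_le_tsum hbad2))
  filter_upwards [e1, e2] with ω h1 h2 G hG
  obtain ⟨J, hJ⟩ := eventually_atTop.mp (h1.and h2)
  have h3 : ∀ j, J ≤ j → ∃ n, x ω n ∈ ann E j ∧ 2 * 4 ^ (d * j + K) ≤ D ω n := by
    intro j hj
    have := (hJ j hj).2
    simp only [not_forall, not_not] at this
    obtain ⟨n, hn1, hn2⟩ := this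
    exact ⟨n, hn1, hn2⟩
  choose! a ha using h3
  refine infinite_comp hG J a ?_ ?_ ?_
  · intro j hj
    have := (ha j hj).1.2
    rw [mem_closedBall_zero_iff, not_le] at this
    exact this
  · intro j hj
    have := (ha j hj).1.1
    rwa [mem_closedBall_zero_iff] at this
  · intro j hj
    have h4 := (hJ j hj).1
    simp only [not_lt] at h4
    have h5 : {n | ‖x ω n‖ ≤ 6 * (4 : ℝ) ^ (j + 1)}.encard =
        cnt (x ω) (Metric.closedBall 0 (6 * (4 : ℝ) ^ (j + 1))) := by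
      simp [cnt]
    rw [h5]
    refine h4.trans ?_
    exact_mod_cast (ha j hj).2

/-- the law giving mass `2 ^ {-(i+1)}` to `f i` -/
noncomputable def geo (f : ℕ → ℕ) : Measure ℕ :=
  Measure.sum fun i => (2⁻¹ : ℝ≥0∞) ^ (i + 1) • Measure.dirac (f i)

theorem geo_apply (f : ℕ → ℕ) (B : Set ℕ) :
    geo f B = ∑' i, (2⁻¹ : ℝ≥0∞) ^ (i + 1) * (B.indicator 1 (f i)) := by
  rw [geo, Measure.sum_apply _ MeasurableSet.of_discrete]
  simp [Measure.dirac_apply' _ MeasurableSet.of_discrete]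

theorem geo_full (f : ℕ → ℕ) {B : Set ℕ} (hB : ∀ i, f i ∈ B) : geo f B = 1 := by
  rw [geo_apply]
  have : ∀ i, (2⁻¹ : ℝ≥0∞) ^ (i + 1) * (B.indicator 1 (f i)) = (2⁻¹ : ℝ≥0∞) ^ (i + 1) := by
    intro i
    rw [Set.indicator_of_mem (hB i)]
    simp
  simp_rw [this]
  rw [ENNReal.tsum_geometric_add_one, ENNReal.one_sub_inv_two, inv_inv]
  exact ENNReal.inv_mul_cancel (by norm_num) (by norm_num)

instance geo_prob (f : ℕ → ℕ) : IsProbabilityMeasure (geo f) := ⟨geo_full f fun _ => trivial⟩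

theorem geo_ge (f : ℕ → ℕ) {B : Set ℕ} {k : ℕ} (hk : f k ∈ B) : (2⁻¹ : ℝ≥0∞) ^ (k + 1) ≤ geo f B := by
  rw [geo_apply]
  have := ENNReal.le_tsum (f := fun i => (2⁻¹ : ℝ≥0∞) ^ (i + 1) * (B.indicator 1 (f i))) k
  simpa [Set.indicator_of_mem hk] using this

end Pool.Agent.Q220.MM
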