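import Pool.Agent.Q220.Match.Core

/-!
Marked Poisson processes, presented as sequences of points, and the two estimates needed.
-/

set_option autoImplicit false

namespace Pool.Agent.Q220.MM

open MeasureTheory ProbabilityTheory Set
open scoped ENNReal

/-- the number of points of the configuration in `A` -/
noncomputable def cnt {E : Type*} (x : ℕ → E) (A : Set E) : ℕ∞ := {n | x n ∈ A}.encard

/-- `x` is an enumeration of the points of a homogeneous Poisson process of intensity one in
`E` (that is `ℝ` or `ℝ^d` with its volume) and, independently of `x`, the marks `D n` are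
independent with law `μ`. -/
structure IsMarkedPoisson {Ω E β : Type*} [MeasurableSpace Ω] [MeasureSpace E]
    [MeasurableSpace β] (P : Measure Ω) (μ : Measure β)
    (x : Ω → ℕ → E) (D : Ω → ℕ → β) : Prop where
  meas_x : ∀ n, Measurable fun ω => x ω n
  meas_D : ∀ n, Measurable fun ω => D ω n
  inj : ∀ᵐ ω ∂P, Function.Injective (x ω)
  poisson : ∀ (m : ℕ) (A : Fin m → Set E) (k : Fin m → ℕ),
    (∀ i, MeasurableSet (A i)) → (∀ i, volume (A i) ≠ ∞) → Pairwise (Function.onFun Disjoint A) →
    P {ω | ∀ i, cnt (x ω) (A i) = k i} =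
      ∏ i, ENNReal.ofReal (Real.exp (-(volume (A i)).toReal) *
        (volume (A i)).toReal ^ (k i) / (k i).factorial)
  marks : P.map D = Measure.infinitePi (fun _ : ℕ => μ)
  indep : IndepFun x D P

/-- Poisson weights -/
noncomputable def pw (V : ℝ) (k : ℕ) : ℝ≥0∞ :=
  ENNReal.ofReal (Real.exp (-V) * V ^ k / k.factorial)

theorem pgf {V z : ℝ} (hV : 0 ≤ V) (hz : 0 ≤ z) :
    ∑' k, pw V k * ENNReal.ofReal z ^ k = ENNReal.ofReal (Real.exp (V * (z - 1))) := by
  have h1 : ∀ k, pw V k * ENNReal.ofReal z ^ k =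
      ENNReal.ofReal (Real.exp (-V) * ((V * z) ^ k / k.factorial)) := by
    intro k
    rw [pw, ← ENNReal.ofReal_pow hz, ← ENNReal.ofReal_mul (by positivity)]
    congr 1
    rw [mul_pow]
    ring
  simp_rw [h1]
  have h2 : HasSum (fun k : ℕ => Real.exp (-V) * ((V * z) ^ k / k.factorial))
      (Real.exp (-V) * Real.exp (V * z)) := by
    have := NormedSpace.expSeries_div_hasSum_exp (V * z)
    rw [← Real.exp_eq_exp_ℝ] at this
    exact this.mul_left _
  rw [← ENNReal.ofReal_tsum_of_nonneg (fun k => by positivity) h2.summable, h2.tsum_eq,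
    ← Real.exp_add]
  congr 2
  ring

theorem pw_tsum {V : ℝ} (hV : 0 ≤ V) : ∑' k, pw V k = 1 := by
  have := pgf hV (z := 1) zero_le_one
  simpa using this

variable {Ω E β : Type*} [MeasurableSpace Ω] [MeasureSpace E] [MeasurableSpace β]
  {P : Measure Ω} {μ : Measure β} {x : Ω → ℕ → E} {D : Ω → ℕ → β}

theorem IsMarkedPoisson.cnt_eq (h : IsMarkedPoisson P μ x D)
    {A : Set E} (hA : MeasurableSet A) (hv : volume A ≠ ∞) (k : ℕ) :
    P {ω | cnt (x ω) A = k} = pw (volume A).toReal k := by
  have := h.poisson 1 (fun _ => A) (fun _ => k) (fun _ => hA) (fun _ => hv) (by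
    intro i j hij
    exact absurd (Subsingleton.elim i j) hij)
  simpa [pw] using this

/-- the event that the indices of the points in `A` are exactly `S` -/
def ev (x : Ω → ℕ → E) (A : Set E)
    (S : Finset ℕ) : Set Ω := {ω | {n | x ω n ∈ A} = ↑S}

theorem ev_disj (A : Set E) :
    Pairwise (Function.onFun Disjoint (ev x A)) := by
  intro S T hST
  rw [Function.onFun, Set.disjoint_left]
  intro ω h1 h2
  apply hST
  have : (S : Set ℕ) = T := by
    rw [← (show {n | x ω n ∈ A} = ↑S from h1), ← (show {n | x ω n ∈ A} = ↑T from h2)]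
  exact_mod_cast this

/-- the corresponding set of point sequences -/
def evs (A : Set E) (S : Finset ℕ) :
    Set (ℕ → E) := {y | {n | y n ∈ A} = ↑S}

theorem evs_meas {A : Set E} (hA : MeasurableSet A) (S : Finset ℕ) :
    MeasurableSet (evs A S) := by
  have : evs A S = ⋂ n : ℕ, {y | y n ∈ A ↔ n ∈ S} := by
    ext y
    simp only [evs, Set.mem_ofPred_eq, Set.mem_iInter, Set.ext_iff, Finset.mem_coe]
  rw [this]
  refine MeasurableSet.iInter fun n => ?_
  by_cases hn : n ∈ S
  · simp only [hn, iff_true]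
    exact hA.preimage (measurable_pi_apply n)
  · simp only [hn, iff_false]
    exact (hA.preimage (measurable_pi_apply n)).compl

theorem ev_meas (h : IsMarkedPoisson P μ x D) {A : Set E}
    (hA : MeasurableSet A) (S : Finset ℕ) : MeasurableSet (ev x A S) := by
  have h1 : Measurable x := measurable_pi_lambda _ h.meas_x
  exact (evs_meas hA S).preimage h1

/-- grouping the sets of indices by their size -/
theorem card_event (A : Set E) (k : ℕ) :
    {ω | cnt (x ω) A = k} = ⋃ S : Finset ℕ, ⋃ _ : S.card = k, ev x A S := by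
  ext ω
  simp only [Set.mem_ofPred_eq, Set.mem_iUnion, exists_prop, ev, cnt]
  constructor
  · intro hk
    have hfin : {n | x ω n ∈ A}.Finite := by
      rw [← Set.encard_lt_top_iff, hk]
      exact ENat.natCast_lt_top _
    refine ⟨hfin.toFinset, ?_, by simp⟩
    rw [hfin.encard_eq_coe_toFinset_card] at hk
    exact_mod_cast hk
  · rintro ⟨S, hS, h2⟩
    rw [h2, Set.encard_coe_eq_coe_finsetCard, hS]

theorem tsum_card (h : IsMarkedPoisson P μ x D) {A : Set E}
    (hA : MeasurableSet A) (hv : volume A ≠ ∞) (g : ℕ → ℝ≥0∞) :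
    ∑' S : Finset ℕ, P (ev x A S) * g S.card = ∑' k, pw (volume A).toReal k * g k := by
  have h1 : ∀ k, pw (volume A).toReal k = ∑' S : Finset ℕ, if S.card = k then P (ev x A S) else 0 := by
    intro k
    rw [← h.cnt_eq hA hv k, card_event]
    have h2 : ⋃ S : Finset ℕ, ⋃ _ : S.card = k, ev x A S =
        ⋃ S : Finset ℕ, (if S.card = k then ev x A S else ∅) := by
      congr 1
      ext S ω
      by_cases hS : S.card = k <;> simp [hS]
    rw [h2, measure_iUnion]
    · congr 1
      ext S
      by_cases hS : S.card = k <;> simp [hS]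
    · intro S T hST
      rw [Function.onFun]
      by_cases hS : S.card = k
      · by_cases hT : T.card = k
        · simp only [hS, hT, if_true]
          exact ev_disj A hST
        · simp [hT]
      · simp [hS]
    · intro S
      by_cases hS : S.card = k
      · simp only [hS, if_true]; exact ev_meas h hA S
      · simp [hS]
  have h3 : ∀ k, pw (volume A).toReal k * g k =
      ∑' S : Finset ℕ, if S.card = k then P (ev x A S) * g S.card else 0 := by
    intro k
    rw [h1 k, ← ENNReal.tsum_mul_right]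
    congr 1
    ext S
    by_cases hS : S.card = k
    · simp [hS]
    · simp [hS]
  simp_rw [h3]
  rw [ENNReal.tsum_comm]
  congr 1
  ext S
  rw [tsum_eq_single S.card]
  · simp
  · intro k hk
    simp [Ne.symm hk]

theorem tsum_ev (h : IsMarkedPoisson P μ x D) {A : Set E}
    (hA : MeasurableSet A) (hv : volume A ≠ ∞) : ∑' S : Finset ℕ, P (ev x A S) = 1 := by
  have := tsum_card h hA hv (fun _ => 1)
  simpa [pw_tsum] using this

/-- almost surely the set of indices of points in `A` is finite -/
theorem ev_cover [IsProbabilityMeasure P] (h : IsMarkedPoisson P μ x D)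
    {A : Set E}
    (hA : MeasurableSet A) (hv : volume A ≠ ∞) (F : Set Ω) :
    P F ≤ ∑' S : Finset ℕ, P (F ∩ ev x A S) := by
  have h1 : P (⋃ S : Finset ℕ, ev x A S)ᶜ = 0 := by
    rw [prob_compl_eq_zero_iff (MeasurableSet.iUnion fun S => ev_meas h hA S),
      measure_iUnion (ev_disj A) (fun S => ev_meas h hA S), tsum_ev h hA hv]
  calc P F ≤ P ((⋃ S : Finset ℕ, F ∩ ev x A S) ∪ (⋃ S : Finset ℕ, ev x A S)ᶜ) := by
        refine measure_mono fun ω hω => ?_
        by_cases hc : ω ∈ ⋃ S : Finset ℕ, ev x A S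
        · left
          rw [Set.mem_iUnion] at hc ⊢
          obtain ⟨S, hS⟩ := hc
          exact ⟨S, hω, hS⟩
        · right; exact hc
    _ ≤ P (⋃ S : Finset ℕ, F ∩ ev x A S) + P (⋃ S : Finset ℕ, ev x A S)ᶜ := measure_union_le _ _
    _ = P (⋃ S : Finset ℕ, F ∩ ev x A S) := by rw [h1, add_zero]
    _ ≤ _ := measure_iUnion_le _

/-- upper tail of the number of points in a set -/
theorem cnt_gt [IsProbabilityMeasure P] (h : IsMarkedPoisson P μ x D)
    {A : Set E}
    (hA : MeasurableSet A) (hv : volume A ≠ ∞) (m : ℕ) :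
    P {ω | (m : ℕ∞) < cnt (x ω) A} ≤
      ENNReal.ofReal (Real.exp ((volume A).toReal)) * (2⁻¹ : ℝ≥0∞) ^ m := by
  refine (ev_cover h hA hv _).trans ?_
  have h1 : ∀ S : Finset ℕ, P ({ω | (m : ℕ∞) < cnt (x ω) A} ∩ ev x A S) ≤
      P (ev x A S) * (ENNReal.ofReal 2 ^ S.card * 2⁻¹ ^ m) := by
    intro S
    by_cases hS : m < S.card
    · calc P ({ω | (m : ℕ∞) < cnt (x ω) A} ∩ ev x A S) ≤ P (ev x A S) * 1 := by
            rw [mul_one]; exact measure_mono Set.inter_subset_right
        _ ≤ _ := by
            gcongr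
            have h2 : (ENNReal.ofReal 2) = 2 := by norm_num
            rw [h2]
            calc (1 : ℝ≥0∞) = 2 ^ m * 2⁻¹ ^ m := by
                  rw [← mul_pow, ENNReal.mul_inv_cancel (by norm_num) (by norm_num), one_pow]
              _ ≤ 2 ^ S.card * 2⁻¹ ^ m := by
                  gcongr
                  · norm_num
    · have : {ω | (m : ℕ∞) < cnt (x ω) A} ∩ ev x A S = ∅ := by
        ext ω
        simp only [Set.mem_inter_iff, Set.mem_ofPred_eq, Set.mem_empty_iff_false, iff_false, not_and]
        intro h2 h3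
        apply hS
        rw [cnt, (show {n | x ω n ∈ A} = ↑S from h3), Set.encard_coe_eq_coe_finsetCard] at h2
        exact_mod_cast h2
      rw [this, measure_empty]
      exact zero_le
  refine (ENNReal.tsum_le_tsum h1).trans ?_
  rw [tsum_card h hA hv (fun k => ENNReal.ofReal 2 ^ k * 2⁻¹ ^ m)]
  simp_rw [← mul_assoc]
  rw [ENNReal.tsum_mul_right, pgf (ENNReal.toReal_nonneg) (by norm_num)]
  gcongr
  norm_num

/-- the probability that no point in `A` has its mark in `B` -/
theorem no_mark [IsProbabilityMeasure P] [IsProbabilityMeasure μ] (h : IsMarkedPoisson P μ x D)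
    {A : Set E}
    (hA : MeasurableSet A) (hv : volume A ≠ ∞) {B : Set β} (hB : MeasurableSet B) :
    P {ω | ∀ n, x ω n ∈ A → D ω n ∉ B} ≤
      ENNReal.ofReal (Real.exp (-((volume A).toReal * (μ B).toReal))) := by
  refine (ev_cover h hA hv _).trans ?_
  have hx : Measurable x := measurable_pi_lambda _ h.meas_x
  have hD : Measurable D := measurable_pi_lambda _ h.meas_D
  have h1 : ∀ S : Finset ℕ, P ({ω | ∀ n, x ω n ∈ A → D ω n ∉ B} ∩ ev x A S) ≤
      P (ev x A S) * (μ Bᶜ) ^ S.card := by
    intro S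
    have hsub : {ω | ∀ n, x ω n ∈ A → D ω n ∉ B} ∩ ev x A S ⊆
        x ⁻¹' (evs A S) ∩ D ⁻¹' (Set.pi (S : Set ℕ) fun _ => Bᶜ) := by
      rintro ω ⟨h2, h3⟩
      refine ⟨h3, fun n hn => ?_⟩
      have h3' : {n | x ω n ∈ A} = ↑S := h3
      have : n ∈ {n | x ω n ∈ A} := by rw [h3']; exact hn
      exact h2 n this
    refine (measure_mono hsub).trans (le_of_eq ?_)
    have hpi : MeasurableSet (Set.pi (S : Set ℕ) fun _ : ℕ => Bᶜ) :=
      MeasurableSet.pi S.countable_toSet (fun _ _ => hB.compl)
    rw [h.indep.measure_inter_preimage_eq_mul _ _ (evs_meas hA S) hpi]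
    congr 1
    rw [← Measure.map_apply hD hpi, h.marks, Measure.infinitePi_pi _ (fun _ _ => hB.compl)]
    simp
  refine (ENNReal.tsum_le_tsum h1).trans ?_
  rw [tsum_card h hA hv (fun k => (μ Bᶜ) ^ k)]
  have h2 : μ Bᶜ = ENNReal.ofReal (1 - (μ B).toReal) := by
    rw [prob_compl_eq_one_sub hB, ENNReal.ofReal_sub _ ENNReal.toReal_nonneg,
      ENNReal.ofReal_one, ENNReal.ofReal_toReal (measure_ne_top _ _)]
  have h3 : (μ B).toReal ≤ 1 := by
    have := prob_le_one (μ := μ) (s := B)
    exact ENNReal.toReal_le_of_le_ofReal zero_le_one (by simpa using this)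
  rw [h2, pgf ENNReal.toReal_nonneg (by linarith)]
  refine le_of_eq ?_
  congr 2
  ring

end Pool.Agent.Q220.MM
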